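import Pool.Agent.W_258ae1_h35.Main

/-!
MP_258ae1_co: PII wins the `(k + 1)`-star avoidance game on `K_n` for all `k ≥ 1` and `n ≥ 8 k`;
hence `h(k) ≤ 8 k`.
-/

namespace Pool.Agent.Results.MP_258ae1_co.LinearBound

open Pool.Agent.W_258ae1_h35

theorem result (k : ℕ) (hk : 1 ≤ k) :
    (∀ n : ℕ, 8 * k ≤ n → PIIWins k n) ∧
      (1 ≤ hStar k ∧ ∀ n : ℕ, hStar k ≤ n → 2 ≤ n → PIIWins k n) ∧ hStar k ≤ 8 * k := by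
  have h1 : 8 * k ∈ {m : ℕ | 1 ≤ m ∧ ∀ n : ℕ, m ≤ n → 2 ≤ n → PIIWins k n} :=
    ⟨by omega, fun n hn _ => main hk hn⟩
  exact ⟨fun n hn => main hk hn, Nat.sInf_mem ⟨_, h1⟩, Nat.sInf_le h1⟩

end Pool.Agent.Results.MP_258ae1_co.LinearBound
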